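import Pool.Agent.MP_5c28a4_al.H89.Spec

/-! Margulis lemma, two block lemma and the first test word. -/

set_option autoImplicit false

namespace Pool.Agent.MP_5c28a4_al.H61

open Pool.Agent.Burnside6 Pool.Agent.MP_5c28a4_al.H89

variable {G : Type} [Group G] {X : Nm G} {E : ℕ}

theorem sq_le (h : X.FP 2) (g z : G) :
    (X.d z (g ^ 2 * z) : ℝ) ≤ X.d z (g * z) + X.τ g + 2 := by
  have t : X.d z (g ^ 2 * z) ≤ 2 * X.d z (g * z) := X.orbit_le g z 2
  by_cases h1 : X.d z (g ^ 2 * z) ≤ X.d z (g * z) + 2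
  · have : (X.d z (g ^ 2 * z) : ℝ) ≤ X.d z (g * z) + 2 := by exact_mod_cast h1
    linarith [X.tau_nonneg g]
  · obtain ⟨l, hl⟩ : ∃ l, X.d z (g ^ 2 * z) = X.d z (g * z) + 2 + l :=
      ⟨X.d z (g ^ 2 * z) - (X.d z (g * z) + 2), by omega⟩
    have := h.orbit_tau (H := g) (x := z) (c := 2 * X.d z (g * z) - X.d z (g ^ 2 * z)) (l := l)
      (by omega) (by omega)
    rw [hl]
    push_cast
    linarith

/-- moving along the displacement segment decreases the displacement -/
theorem step (h : X.FP 2) {g z y : G} {c T : ℕ} (hT : X.τ g < T + 1)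
    (hy : X.d z y + X.d y (g * z) ≤ X.d z (g * z) + c)
    (hν : T + 2 * X.d z y + c + 4 < X.d z (g * z)) :
    X.d y (g * y) + 2 * X.d z y ≤ X.d z (g * z) + 2 * c + 4 := by
  have h1 := sq_le h g z
  have h2 : X.d z (g ^ 2 * z) < X.d z (g * z) + T + 3 := by
    have : (X.d z (g ^ 2 * z) : ℝ) < X.d z (g * z) + T + 3 := by linarith
    exact_mod_cast this
  have h3 : X.d (g * z) (g * y) + X.d (g * y) (g ^ 2 * z) ≤ X.d (g * z) (g ^ 2 * z) + c := by
    rw [pow_two, mul_assoc]; simp only [Nm.d_mul]; omega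
  have f1 : X.d (g * y) (g ^ 2 * z) = X.d y (g * z) := by rw [pow_two, mul_assoc, Nm.d_mul]
  have f2 : X.d (g * z) (g * y) = X.d z y := X.d_mul _ _ _
  have t1 := X.tri z y (g * z)
  have t2 := X.tri z (g * y) (g * z)
  have := X.comm (g * y) (g * z)
  have := X.comm (g * y) z
  have := X.comm (g * z) z
  have l1 := h.L1 h3 z
  have h4 : X.d z (g * y) + X.d (g * y) (g * z) ≤ X.d z (g * z) + (c + 2) := by omega
  have l2 := h.L2 hy h4
  omega

/-- a zigzag with two long sides -/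
theorem zigzag (h : X.FP 2) {A B z : G} {c : ℕ}
    (h1 : X.d z (A * z) + X.d z (B * z) ≤ X.d z (A * B * z) + c)
    (h2 : X.d z (A * z) + X.d z (B * z) ≤ X.d z (B * A * z) + c)
    (hA : c + 2 < X.d z (A * z)) (hB : c + 2 < X.d z (B * z)) :
    2 * X.d z (A * B * z) ≤ X.d z ((A * B) ^ 2 * z) + (c + 4) := by
  have e1 : X.d (A * z) (A * B * z) = X.d z (B * z) := by rw [mul_assoc, Nm.d_mul]
  have e2 : X.d (A * B * z) (A * B * A * z) = X.d z (A * z) := by
    rw [mul_assoc (A * B), Nm.d_mul]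
  have e3 : X.d (A * z) (A * B * A * z) = X.d z (B * A * z) := by
    rw [mul_assoc A B, mul_assoc A, Nm.d_mul]
  have e4 : X.d (A * B * z) ((A * B) ^ 2 * z) = X.d z (A * B * z) := by
    rw [pow_two, mul_assoc (A * B), Nm.d_mul]
  have e5 : X.d ((A * B) ^ 2 * z) (A * B * A * z) = X.d z (B * z) := by
    rw [show (A * B) ^ 2 * z = A * B * A * (B * z) by rw [pow_two]; group, Nm.d_mul, X.comm]
  have l1 := h.L1 (x := A * z) (m := A * B * z) (y := A * B * A * z) (c := c) (by omega) z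
  have := X.comm (A * B * z) z
  have := X.comm (A * z) z
  have h3 : X.d z (A * B * z) + X.d (A * B * z) (A * B * A * z) ≤
      X.d z (A * B * A * z) + (c + 2) := by omega
  have l2 := h.L1 h3 ((A * B) ^ 2 * z)
  have := X.comm ((A * B) ^ 2 * z) (A * B * z)
  omega

theorem corner (h : X.FP 2) {g k z : G} {L T : ℕ} (hg : X.τ g < T + 1) (hk : X.τ k < T + 1)
    (hm : ∀ y, L ≤ max (X.d y (g * y)) (X.d y (k * y))) (h1 : X.d z (g * z) = L)
    (h2 : X.d z (k * z) ≤ L) (hL : T + 40 ≤ L) :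
    L ≤ X.d z (k * z) + 12 ∧ L + X.d z (k * z) ≤ X.d (g * z) (k * z) + 14 := by
  obtain ⟨y, y1, y2⟩ := X.exists_between z (g * z) 6 (by omega)
  have s1 := step h (c := 0) hg (le_of_eq y2) (by omega)
  have m := hm y
  have t1 := X.tri y z (k * y)
  have t2 := X.tri z (k * z) (k * y)
  have t3 := X.tri z y (k * z)
  have := X.comm y z
  have := X.comm (k * z) y
  have := X.comm (k * z) (g * z)
  rw [Nm.d_mul] at t2
  refine ⟨by omega, ?_⟩
  rcases h.L1 (c := 0) (le_of_eq y2) (k * z) with l | l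
  · have s2 := step h (c := 2) hk l (by omega)
    omega
  · omega

theorem marg_aux (h : X.FP 2) {g k z : G} {L T : ℕ} (hg : X.τ g < T + 1) (hk : X.τ k < T + 1)
    (hq : X.τ (k * g⁻¹) < T + 1) (hm : ∀ y, L ≤ max (X.d y (g * y)) (X.d y (k * y)))
    (h1 : X.d z (g * z) = L) (h2 : X.d z (k * z) ≤ L) : L ≤ T + 99 := by
  by_contra hL
  have c1 := corner h hg hk hm h1 h2 (by omega)
  have c2 := corner h (g := g⁻¹) (k := k⁻¹) (z := z) (L := L) (T := T) (by rwa [X.tau_inv])
    (by rwa [X.tau_inv]) (by simpa only [Nm.d_inv_self] using hm) (by rwa [Nm.d_inv_self])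
    (by rwa [Nm.d_inv_self]) (by omega)
  have e1 : X.d (g⁻¹ * z) (k⁻¹ * z) = X.d z (k * g⁻¹ * z) := by
    rw [X.comm, Nm.d_inv_left, mul_assoc]
  have e2 : X.d (g * z) (k * z) = X.d z (g⁻¹ * k * z) := by
    rw [mul_assoc, Nm.d_inv_right]
  have e3 : X.d z (g⁻¹ * z) = L := by rwa [Nm.d_inv_self]
  rw [Nm.d_inv_self, e1] at c2
  rw [e2] at c1
  have z1 := zigzag h (A := k) (B := g⁻¹) (z := z) (c := 14) (by omega) (by omega) (by omega)
    (by omega)
  have := h.orbit_tau (l := T + 1) z1 (by omega)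
  push_cast at this
  linarith

/-- Margulis lemma -/
theorem margulis (h : X.FP 2) (g k : G) :
    ∃ z, ((max (X.d z (g * z)) (X.d z (k * z)) : ℕ) : ℝ) ≤ mu X g k + 99 := by
  obtain ⟨z, hz⟩ : ∃ z, ∀ y, max (X.d z (g * z)) (X.d z (k * z)) ≤
      max (X.d y (g * y)) (X.d y (k * y)) :=
    ⟨_, fun y => Function.argmin_le (fun y => max (X.d y (g * y)) (X.d y (k * y))) y⟩
  have h0 : 0 ≤ mu X g k := (X.tau_nonneg g).trans (le_max_left _ _)
  have hT := Nat.lt_floor_add_one (mu X g k)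
  have hT' := Nat.floor_le h0
  have a1 : X.τ g < ⌊mu X g k⌋₊ + 1 := lt_of_le_of_lt (le_max_left _ _) hT
  have a2 : X.τ k < ⌊mu X g k⌋₊ + 1 :=
    lt_of_le_of_lt ((le_max_left _ _).trans (le_max_right _ _)) hT
  have a3 : X.τ (k * g⁻¹) < ⌊mu X g k⌋₊ + 1 :=
    lt_of_le_of_lt ((le_max_right _ _).trans (le_max_right _ _)) hT
  have key : max (X.d z (g * z)) (X.d z (k * z)) ≤ ⌊mu X g k⌋₊ + 99 := by
    rcases le_total (X.d z (k * z)) (X.d z (g * z)) with hle | hle
    · exact marg_aux h a1 a2 a3 hz (max_eq_left hle).symm (le_max_right _ _)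
    · refine marg_aux h (z := z) a2 a1 ?_ (fun y => (hz y).trans (max_comm _ _).le)
        (max_eq_right hle).symm (le_max_left _ _)
      rwa [← X.tau_inv, mul_inv_rev, inv_inv]
  refine ⟨z, ?_⟩
  have : ((max (X.d z (g * z)) (X.d z (k * z)) : ℕ) : ℝ) ≤ ⌊mu X g k⌋₊ + 99 := by
    exact_mod_cast key
  linarith

/-- two block lemma, first block long -/
theorem twoL (h : TF X E) {a a' A A' z : G} {w : ℕ} (hc : ¬ Commute a a') (hA : Commute a A)
    (hA' : Commute a' A') (hn : ¬ Commute a A') (ha : X.d z (a * z) ≤ w)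
    (ha' : X.d z (a' * z) ≤ w) (hν : 100000000 * (w + 1) ≤ X.d z (A * z)) :
    (X.d z (A * z) : ℝ) ≤ 2 * X.τ (A * A') ∧
      ∀ q, X.d z (q * z) ≤ w → Commute q (A * A') → Commute q a := by
  have b1 : X.d (A * z) (a * (A * z)) ≤ w := by rwa [Nm.d_commute hA]
  have b2 : X.d (A' * z) (a' * (A' * z)) ≤ w := by rwa [Nm.d_commute hA']
  have b3 : X.d (A⁻¹ * z) (a * (A⁻¹ * z)) ≤ w := by rwa [Nm.d_commute hA.inv_right]
  have b4 : X.d (A'⁻¹ * z) (a' * (A'⁻¹ * z)) ≤ w := by rwa [Nm.d_commute hA'.inv_right]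
  have j1 := junction h b3 ha ha' b2 hc
  have j2 := junction h b4 ha' ha b1 fun e => hc e.symm
  rw [Nm.d_inv_left, Nm.d_inv_left, ← mul_assoc] at j1 j2
  have e1 : X.d (A * z) (A * A' * z) = X.d z (A' * z) := by rw [mul_assoc, Nm.d_mul]
  constructor
  · have key : 2 * X.d z (A * A' * z) ≤ X.d z ((A * A') ^ 2 * z) + (31000 + 900 * w) := by
      by_cases hs : 746 + 20 * w + 2 < X.d z (A' * z)
      · have := zigzag h.fp j1 (by omega) (by omega) hs
        omega
      · have m1 : X.d (A * A' * z) (a * (A * A' * z)) ≤ w + 2 * X.d z (A' * z) := by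
          have t1 := X.tri' (A * A' * z) (A * z) (a * (A * A' * z))
          have t2 := X.tri (A * z) (a * (A * z)) (a * (A * A' * z))
          rw [Nm.d_mul] at t2
          omega
        have m2 : X.d (A * A' * z) (A * A' * a * (A * A')⁻¹ * (A * A' * z)) ≤
            w + 2 * X.d z (A' * z) := by
          rw [Nm.d_conj, inv_mul_cancel_left]; omega
        have m3 : X.d ((A * A') ^ 2 * z) (A * A' * a * (A * A')⁻¹ * ((A * A') ^ 2 * z)) ≤
            w + 2 * X.d z (A' * z) := by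
          rw [Nm.d_conj, pow_two, mul_assoc (A * A'), inv_mul_cancel_left]; exact m1
        have j3 := junction h (ha.trans (Nat.le_add_right _ _)) m1 m2 m3 fun e => by
          have := h.csab _ _ e.symm
          exact hn (by simpa using hA.inv_right.mul_right this.symm)
        rw [pow_two, mul_assoc (A * A'), Nm.d_mul, ← mul_assoc (A * A'), ← pow_two] at j3
        omega
    obtain ⟨l, hl⟩ : ∃ l, X.d z (A * A' * z) = 31000 + 900 * w + 2 + l :=
      ⟨X.d z (A * A' * z) - (31000 + 900 * w + 2), by omega⟩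
    have t := h.fp.orbit_tau (l := l) key hl.ge
    have : (X.d z (A * z) : ℝ) ≤ 2 * l := by exact_mod_cast (by omega)
    linarith
  · intro q hq hqc
    have d1 := h.fp.disp (p := z) (q := A * A' * z) (z := A * z) (u := q) (c := 746 + 20 * w)
      (C := w) (by omega) hq (by rwa [Nm.d_commute hqc])
    exact h.h4p (w + (746 + 20 * w) + 2) q a z (A * z) (by omega) d1 (by omega) (by omega)
      (by omega)

/-- two block lemma, second block long -/
theorem twoR (h : TF X E) {a a' A A' z : G} {w : ℕ} (hc : ¬ Commute a a') (hA : Commute a A)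
    (hA' : Commute a' A') (hn : ¬ Commute a' A) (ha : X.d z (a * z) ≤ w)
    (ha' : X.d z (a' * z) ≤ w) (hν : 100000000 * (w + 1) ≤ X.d z (A' * z)) :
    (X.d z (A' * z) : ℝ) ≤ 2 * X.τ (A * A') ∧
      ∀ q, X.d z (q * z) ≤ w → Commute q (A * A') → Commute q a' := by
  have := twoL h (fun e => hc e.symm) hA'.inv_right hA.inv_right
    (fun e => hn (by simpa using e.inv_right)) ha' ha (by rwa [Nm.d_inv_self])
  rw [← mul_inv_rev, X.tau_inv, Nm.d_inv_self] at this
  exact ⟨this.1, fun q h1 h2 => this.2 q h1 h2.inv_right⟩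

theorem pow_long {u z : G} {n N : ℕ} {L K : ℝ} (hK : 0 < K) (hu : L ≤ K * X.τ u)
    (hN : N * K ≤ n * L) : N ≤ X.d z (u ^ n * z) := by
  have h1 := X.tau_le u z n
  have h2 : (N : ℝ) * K ≤ n * X.τ u * K := by
    have := mul_le_mul_of_nonneg_left hu (Nat.cast_nonneg (α := ℝ) n)
    linarith
  exact_mod_cast (le_of_mul_le_mul_right h2 hK).trans h1

theorem word (h : TF X E) {g k z : G} (hc : ¬ Commute g k) {L e a b c : ℕ} (hL : 1 ≤ L)
    (he : 1 ≤ e) (ha : 60000000000 * e ≤ a) (hb : 300000000 * a ≤ b) (hc' : 1000 * e * a * b ≤ c)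
    (hg : X.d z (g * z) ≤ L) (hk : X.d z (k * z) ≤ L) (hμ : (L : ℝ) ≤ 200 * e * mu X g k) :
    (L : ℝ) ≤ X.τ ((g ^ a * k ^ a) ^ b * (k * g⁻¹) ^ c) ∧
      ¬ Commute g ((g ^ a * k ^ a) ^ b * (k * g⁻¹) ^ c) := by
  have ha0 : a ≠ 0 := by omega
  have hb0 : b ≠ 0 := by omega
  have hc0 : c ≠ 0 := by
    have : 0 < 1000 * e * a * b := by positivity
    omega
  have hL' : (1 : ℝ) ≤ L := by exact_mod_cast hL
  have he' : (1 : ℝ) ≤ e := by exact_mod_cast he
  have ha' : (60000000000 : ℝ) * e ≤ a := by exact_mod_cast ha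
  have hb' : (300000000 : ℝ) * a ≤ b := by exact_mod_cast hb
  have hc'' : (1000 : ℝ) * e * a * b ≤ c := by exact_mod_cast hc'
  have hK : (0 : ℝ) < 200 * e := by positivity
  have gq : ¬ Commute g (k * g⁻¹) := fun e => hc (by simpa using e.mul_right (Commute.refl g))
  have kq : ¬ Commute k (k * g⁻¹) := fun e =>
    hc (by simpa using ((Commute.refl k).inv_right.mul_right e).inv_right.symm)
  have gk : ¬ Commute g (k ^ a) := fun e => hc (h.comm_of_pow ha0 e)
  have kg : ¬ Commute k (g ^ a) := fun e => hc (h.comm_of_pow ha0 e).symm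
  have gE : ¬ Commute g (g ^ a * k ^ a) := fun e =>
    gk (by simpa using ((Commute.refl g).pow_right a).inv_right.mul_right e)
  have dq : X.d z (k * g⁻¹ * z) ≤ 2 * L := by
    have t := X.tri z (k * z) (k * g⁻¹ * z)
    rw [mul_assoc, Nm.d_mul, Nm.d_inv_self, ← mul_assoc] at t
    omega
  have dE : X.d z (g ^ a * k ^ a * z) ≤ 2 * (a * L) := by
    have t := X.tri z (g ^ a * z) (g ^ a * k ^ a * z)
    rw [mul_assoc, Nm.d_mul, ← mul_assoc] at t
    have t1 := (X.orbit_le g z a).trans (Nat.mul_le_mul_left a hg)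
    have t2 := (X.orbit_le k z a).trans (Nat.mul_le_mul_left a hk)
    omega
  have hLa : L ≤ a * L := Nat.le_mul_of_pos_left L (by omega)
  have hLa' : (L : ℝ) ≤ a * L := by exact_mod_cast hLa
  obtain ⟨q, hq⟩ : ∃ q, q = k * g⁻¹ := ⟨_, rfl⟩
  obtain ⟨U, hU⟩ : ∃ U, U = g ^ a * k ^ a := ⟨_, rfl⟩
  have caseA : (L : ℝ) ≤ X.τ U → ¬ Commute U q → (L : ℝ) ≤ X.τ (U ^ b * q ^ c) ∧
      ¬ Commute g (U ^ b * q ^ c) := by
    intro h1 h2
    have l : 100000000 * (2 * (a * L) + 1) ≤ X.d z (U ^ b * z) :=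
      pow_long (K := 1) (L := L) one_pos (by rwa [one_mul]) (by push_cast; nlinarith)
    have t := twoL h h2 ((Commute.refl U).pow_right b) ((Commute.refl q).pow_right c)
      (fun e => h2 (h.comm_of_pow hc0 e)) (hU ▸ dE) (hq ▸ dq.trans (by omega)) l
    refine ⟨?_, fun e => gE (hU ▸ t.2 g (by omega) e)⟩
    have : (2 * L : ℝ) ≤ X.d z (U ^ b * z) := by exact_mod_cast (by omega)
    linarith [t.1]
  have hn : (100000000 * (2 * L + 1) : ℕ) * (200 * (e : ℝ)) ≤ a * L := by push_cast; nlinarith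
  rw [← hU, ← hq]
  unfold mu at hμ
  rw [mul_max_of_nonneg _ _ hK.le, mul_max_of_nonneg _ _ hK.le] at hμ
  rcases le_max_iff.1 hμ with h1 | h1
  · have l := pow_long (z := z) hK h1 hn
    have t := twoL h hc ((Commute.refl g).pow_right a) ((Commute.refl k).pow_right a) gk
      (hg.trans (by omega)) (hk.trans (by omega)) l
    rw [← hU] at t
    refine caseA ?_ fun e => gq (hq ▸ (t.2 q (hq ▸ dq) e.symm).symm)
    have : (2 * L : ℝ) ≤ X.d z (g ^ a * z) := by exact_mod_cast (by omega)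
    linarith [t.1]
  rcases le_max_iff.1 h1 with h1 | h1
  · have l := pow_long (z := z) hK h1 hn
    have t := twoR h hc ((Commute.refl g).pow_right a) ((Commute.refl k).pow_right a) kg
      (hg.trans (by omega)) (hk.trans (by omega)) l
    rw [← hU] at t
    refine caseA ?_ fun e => kq (hq ▸ (t.2 q (hq ▸ dq) e.symm).symm)
    have : (2 * L : ℝ) ≤ X.d z (k ^ a * z) := by exact_mod_cast (by omega)
    linarith [t.1]
  rw [← hq] at h1 gq dq
  rw [← hU] at dE
  have hcL : 5 * (b * (a * L)) * (200 * (e : ℝ)) ≤ c * L := by nlinarith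
  have haL : (0 : ℝ) < a * L := by linarith
  by_cases hUq : Commute U q
  · have t := h.fp.tau_four (a := (U ^ b)⁻¹) (b := U ^ b * q ^ c)
      ((Commute.refl _).mul_right (hUq.pow_pow b c)).inv_left
    rw [inv_mul_cancel_left, X.tau_inv, X.tau_pow, X.tau_pow] at t
    have t0 := X.tau_nonneg ((U ^ b)⁻¹ * (U ^ b * q ^ c)⁻¹)
    have t1 : X.τ U ≤ 2 * (a * L) := (X.tau_le_one U z).trans (by exact_mod_cast dE)
    have t2 : 5 * (b * (a * L)) ≤ c * X.τ q := by
      refine le_of_mul_le_mul_right (hcL.trans ?_) hK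
      have := mul_le_mul_of_nonneg_left h1 (Nat.cast_nonneg (α := ℝ) c)
      linarith
    have hb1 : (1 : ℝ) ≤ b := by exact_mod_cast (by omega)
    have t3 : b * X.τ U ≤ b * (2 * (a * L)) := mul_le_mul_of_nonneg_left t1 (by linarith)
    have t4 : (a : ℝ) * L ≤ b * (a * L) := le_mul_of_one_le_left haL.le hb1
    have t5 : (L : ℝ) ≤ X.τ (U ^ b * q ^ c) := by
      rcases le_total (b * X.τ U) (X.τ (U ^ b * q ^ c)) with h2 | h2
      · rw [max_eq_right h2] at t; linarith
      · rw [max_eq_left h2] at t; linarith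
    refine ⟨t5, fun e => gq (h.csaa _ _ _ (X.ne_one_of_tau (by linarith)) e ?_)⟩
    exact (hUq.symm.pow_right b).mul_right ((Commute.refl q).pow_right c)
  · have l : 100000000 * (2 * (a * L) + 1) ≤ X.d z (q ^ c * z) := by
      refine pow_long hK h1 (le_trans (mul_le_mul_of_nonneg_right ?_ hK.le) hcL)
      push_cast
      nlinarith
    have t := twoR h hUq ((Commute.refl U).pow_right b) ((Commute.refl q).pow_right c)
      (fun e => hUq (h.comm_of_pow hb0 e).symm) dE (dq.trans (by omega)) l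
    refine ⟨?_, fun e => gq (t.2 g (by omega) e)⟩
    have : (2 * L : ℝ) ≤ X.d z (q ^ c * z) := by exact_mod_cast (by omega)
    linarith [t.1]

theorem size {L m e : ℝ} (he : 1 ≤ e) (h1 : 1 ≤ e * m) (h2 : L ≤ m + 101) : L ≤ 200 * e * m := by
  have hm : 0 ≤ m := by
    by_contra h
    nlinarith
  nlinarith

theorem a0 : A0Stmt := by
  intro G _ X E h g k hc hμ
  obtain ⟨z, hz⟩ := margulis h.fp g k
  have he : 1 ≤ cE0 := by unfold cE0; norm_num
  have hL : ((max (X.d z (g * z)) (X.d z (k * z)) + 1 : ℕ) : ℝ) ≤ mu X g k + 101 := by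
    rw [Nat.cast_add_one]; linarith
  have t := word h hc (z := z) (L := max (X.d z (g * z)) (X.d z (k * z)) + 1) (Nat.le_add_left _ _)
    he dA_eq.ge dB_eq.ge dC_eq.ge ((le_max_left _ _).trans (Nat.le_succ _))
    ((le_max_right _ _).trans (Nat.le_succ _)) (size (by exact_mod_cast he) hμ hL)
  unfold eW
  exact ⟨z, _, Nat.le_add_left _ _, (le_max_left _ _).trans (Nat.le_succ _),
    (le_max_right _ _).trans (Nat.le_succ _), t.1, t.2, hL⟩

end Pool.Agent.MP_5c28a4_al.H61
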